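import Pool.Agent.H66.S2.Basic

/-!
# Project T5B, module EPI: Pieri's rule for exterior powers, integral form
(straightening of alternants after H87/T5/SPN)
-/

set_option autoImplicit false
set_option linter.unusedSectionVars false

namespace Pool.H66.S2

open Filter Topology

noncomputable section

/-- The alternant. -/
def EPI_alt {m : ℕ} (c : Fin m → ℂ) (γ : Fin m → ℕ) : ℂ :=
  (Matrix.of fun i j : Fin m => c i ^ γ j).det

/-- The exponents `m - 1 - j`. -/
def EPI_del {m : ℕ} (j : Fin m) : ℕ := m - 1 - (j : ℕ)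

theorem EPI_alt_perm {m : ℕ} (c : Fin m → ℂ) (γ : Fin m → ℕ) (σ : Equiv.Perm (Fin m)) :
    EPI_alt c (γ ∘ σ) = (Equiv.Perm.sign σ : ℤ) * EPI_alt c γ := by
  unfold EPI_alt
  rw [← Matrix.det_permute' σ (Matrix.of fun i j : Fin m => c i ^ γ j)]
  rfl

theorem EPI_sign_sq {m : ℕ} (σ : Equiv.Perm (Fin m)) :
    (((Equiv.Perm.sign σ : ℤˣ) : ℤ) : ℂ) * (((Equiv.Perm.sign σ : ℤˣ) : ℤ) : ℂ) = 1 := by
  rw [← Int.cast_mul]
  have : ((Equiv.Perm.sign σ : ℤˣ) : ℤ) * ((Equiv.Perm.sign σ : ℤˣ) : ℤ) = 1 := by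
    rw [← Units.val_mul, Int.units_mul_self]
    rfl
  rw [this]
  norm_num

theorem EPI_alt_zero {m : ℕ} (c : Fin m → ℂ) (γ : Fin m → ℕ) (h : ¬ Function.Injective γ) :
    EPI_alt c γ = 0 := by
  unfold Function.Injective at h
  push Not at h
  obtain ⟨i, j, hij, hne⟩ := h
  unfold EPI_alt
  apply Matrix.det_zero_of_column_eq hne
  intro k
  simp [hij]

theorem EPI_mono {m : ℕ} (g : Fin m → ℕ) (hg : StrictMono g) :
    ∀ d : ℕ, ∀ i j : Fin m, (j : ℕ) = i + d → g i + d ≤ g j := by
  intro d
  induction d with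
  | zero =>
    intro i j hij
    have : i = j := Fin.ext (by omega)
    rw [this]
    omega
  | succ d ih =>
    intro i j hij
    have hlt : (i : ℕ) + d < m := by have := j.2; omega
    have h1 := ih i ⟨i + d, hlt⟩ rfl
    have h2 : g ⟨i + d, hlt⟩ < g j := hg (by
      show (i : ℕ) + d < (j : ℕ)
      omega)
    omega

theorem EPI_sort {m : ℕ} (γ : Fin m → ℕ) (h : Function.Injective γ) :
    ∃ (σ : Equiv.Perm (Fin m)) (nu : Fin m → ℕ), Antitone nu ∧
      γ ∘ σ = fun j => nu j + EPI_del j := by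
  set g : Fin m → ℕ := γ ∘ Tuple.sort γ with hg
  have hmono : StrictMono g :=
    (Tuple.monotone_sort γ).strictMono_of_injective (h.comp (Tuple.sort γ).injective)
  have hge : ∀ i : Fin m, (i : ℕ) ≤ g i := by
    intro i
    have h0 : 0 < m := lt_of_le_of_lt (Nat.zero_le _) i.2
    have := EPI_mono g hmono i ⟨0, h0⟩ i (by simp)
    omega
  refine ⟨Fin.revPerm.trans (Tuple.sort γ), fun j => g (Fin.rev j) - (Fin.rev j : ℕ), ?_, ?_⟩
  · intro i j hij
    show g (Fin.rev j) - (Fin.rev j : ℕ) ≤ g (Fin.rev i) - (Fin.rev i : ℕ)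
    have h1 : ((Fin.rev i : Fin m) : ℕ) = (Fin.rev j : Fin m) + ((j : ℕ) - i) := by
      have h2 : (i : ℕ) ≤ j := hij
      have := i.2
      have := j.2
      rw [Fin.val_rev, Fin.val_rev]
      omega
    have h3 := EPI_mono g hmono _ _ _ h1
    have h4 := hge (Fin.rev j)
    omega
  · funext j
    show g (Fin.rev j) = _
    have h4 := hge (Fin.rev j)
    have h5 : ((Fin.rev j : Fin m) : ℕ) = EPI_del j := by
      rw [Fin.val_rev, EPI_del]
      have := j.2
      omega
    show g (Fin.rev j) = g (Fin.rev j) - (Fin.rev j : ℕ) + EPI_del j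
    omega

theorem EPI_straight {m : ℕ} (γ : Fin m → ℕ) : ∃ (n : ℤ) (nu : Fin m → ℕ),
    (n ≠ 0 → Antitone nu ∧ ∑ j, nu j + ∑ j : Fin m, EPI_del j = ∑ j, γ j) ∧
    ∀ c : Fin m → ℂ, EPI_alt c γ = (n : ℂ) * EPI_alt c fun j => nu j + EPI_del j := by
  by_cases h : Function.Injective γ
  · obtain ⟨σ, nu, hnu, he⟩ := EPI_sort γ h
    refine ⟨Equiv.Perm.sign σ, nu, fun _ => ⟨hnu, ?_⟩, fun c => ?_⟩
    · rw [← Finset.sum_add_distrib]
      have h1 : ∑ j, (γ ∘ σ) j = ∑ j, γ j := Equiv.sum_comp σ γ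
      rw [← h1, he]
    · rw [← he, EPI_alt_perm, ← mul_assoc, EPI_sign_sq, one_mul]
  · exact ⟨0, 0, fun h0 => absurd rfl h0, fun c => by
      rw [EPI_alt_zero c γ h]
      simp⟩

theorem EPI_ne {m : ℕ} (c : Fin m → ℂ) (hc : Function.Injective c) : EPI_alt c EPI_del ≠ 0 := by
  have h1 : EPI_alt c (EPI_del ∘ (Fin.revPerm : Equiv.Perm (Fin m))) ≠ 0 := by
    have h2 : (EPI_del ∘ (Fin.revPerm : Equiv.Perm (Fin m))) = fun j : Fin m => (j : ℕ) := by
      funext j
      show m - 1 - ((Fin.rev j : Fin m) : ℕ) = j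
      rw [Fin.val_rev]
      have := j.2
      omega
    rw [h2]
    exact Matrix.det_vandermonde_ne_zero_iff.2 hc
  rw [EPI_alt_perm] at h1
  exact right_ne_zero_of_mul h1

theorem EPI_hs_cont (m k : ℕ) :
    Continuous fun c : Fin m → ℂ => hs k (Finset.univ.val.map c) := by
  classical
  have e : (fun c : Fin m → ℂ => hs k (Finset.univ.val.map c)) = fun c =>
      ∑ l ∈ Finset.finsuppAntidiag Finset.univ k, ∏ i : Fin m, c i ^ (l i) := by
    funext c
    unfold hs
    rw [Multiset.map_map]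
    have : (Multiset.map ((fun a : ℂ => (PowerSeries.mk fun n => a ^ n : PowerSeries ℂ)) ∘ c)
        (Finset.univ : Finset (Fin m)).val).prod =
        ∏ i : Fin m, (PowerSeries.mk fun n => c i ^ n : PowerSeries ℂ) := rfl
    rw [this, PowerSeries.coeff_prod]
    refine Finset.sum_congr rfl fun l _ => ?_
    refine Finset.prod_congr rfl fun i _ => ?_
    rw [PowerSeries.coeff_mk]
  rw [e]
  fun_prop

theorem EPI_schur_cont (m : ℕ) {r : ℕ} (lam : Fin r → ℕ) :
    Continuous fun c : Fin m → ℂ => schur lam (Finset.univ.val.map c) := by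
  unfold schur JT
  apply Continuous.matrix_det
  refine continuous_matrix fun i j => ?_
  simp only [Matrix.of_apply]
  unfold sz
  split_ifs
  · exact EPI_hs_cont m _
  · exact continuous_const

theorem EPI_inj {m : ℕ} (c : Fin m → ℂ) :
    ∀ᶠ t in 𝓝[≠] (0 : ℂ), Function.Injective (fun i : Fin m => c i + t * ((i : ℕ) : ℂ)) := by
  have h : ∀ i j : Fin m, i ≠ j → ∀ᶠ t in 𝓝[≠] (0 : ℂ),
      c i + t * ((i : ℕ) : ℂ) ≠ c j + t * ((j : ℕ) : ℂ) := by
    intro i j hij
    by_cases hc : c i = c j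
    · filter_upwards [self_mem_nhdsWithin] with t ht
      intro heq
      rw [hc] at heq
      have h1 : t * ((i : ℕ) : ℂ) = t * ((j : ℕ) : ℂ) := add_left_cancel heq
      have h2 := mul_left_cancel₀ ht h1
      exact hij (Fin.ext (by exact_mod_cast h2))
    · have h1 : Continuous fun t : ℂ => (c i + t * ((i : ℕ) : ℂ)) - (c j + t * ((j : ℕ) : ℂ)) := by
        fun_prop
      have h2 : ∀ᶠ t in 𝓝 (0 : ℂ), (c i + t * ((i : ℕ) : ℂ)) - (c j + t * ((j : ℕ) : ℂ)) ≠ 0 := by
        apply h1.continuousAt.eventually_ne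
        simpa using sub_ne_zero.2 hc
      filter_upwards [nhdsWithin_le_nhds h2] with t ht
      exact sub_ne_zero.1 ht
  have h' : ∀ᶠ t in 𝓝[≠] (0 : ℂ), ∀ i j : Fin m, i ≠ j →
      c i + t * ((i : ℕ) : ℂ) ≠ c j + t * ((j : ℕ) : ℂ) := by
    rw [Filter.eventually_all]
    intro i
    rw [Filter.eventually_all]
    intro j
    by_cases hij : i = j
    · exact Filter.Eventually.of_forall fun t ht => absurd hij ht
    · filter_upwards [h i j hij] with t ht _
      exact ht
  filter_upwards [h'] with t ht i j hij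
  by_contra hne
  exact ht i j hne hij


theorem EPI_mul {m : ℕ} (c : Fin m → ℂ) (a : ℕ) (β : Fin m → ℕ) :
    (Finset.univ.val.map c).esymm a * EPI_alt c β =
      ∑ s ∈ Finset.powersetCard a (Finset.univ : Finset (Fin m)),
        EPI_alt c (fun j => β j + if j ∈ s then 1 else 0) := by
  classical
  unfold EPI_alt
  simp only [Matrix.det_apply', Matrix.of_apply]
  rw [Finset.sum_comm, Finset.mul_sum]
  refine Finset.sum_congr rfl fun σ _ => ?_
  have h1 : (Finset.univ.val.map c).esymm a =
      ∑ s ∈ Finset.powersetCard a (Finset.univ : Finset (Fin m)), ∏ i ∈ s, c (σ i) := by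
    have h2 : (Finset.univ.val.map c) = Finset.univ.val.map (fun i => c (σ i)) := by
      have h3 : (Finset.univ.val.map σ : Multiset (Fin m)) = Finset.univ.val := by
        have := Finset.map_univ_equiv σ
        have h4 := congrArg Finset.val this
        rwa [Finset.map_val] at h4
      conv_lhs => rw [← h3]
      rw [Multiset.map_map]
      rfl
    rw [h2, Finset.esymm_map_val]
  rw [h1, Finset.sum_mul]
  refine Finset.sum_congr rfl fun s _ => ?_
  have h5 : ∏ i, c (σ i) ^ (β i + if i ∈ s then 1 else 0) =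
      (∏ i, c (σ i) ^ β i) * ∏ i ∈ s, c (σ i) := by
    simp only [pow_add]
    rw [Finset.prod_mul_distrib]
    congr 1
    rw [← Finset.prod_filter_mul_prod_filter_not Finset.univ (fun i => i ∈ s)]
    have e1 : Finset.univ.filter (fun i => i ∈ s) = s := by ext i; simp
    rw [e1]
    have e2 : ∏ i ∈ s, c (σ i) ^ (if i ∈ s then 1 else 0) = ∏ i ∈ s, c (σ i) := by
      refine Finset.prod_congr rfl fun i hi => ?_
      rw [if_pos hi, pow_one]
    have e3 : ∏ i ∈ Finset.univ.filter (fun i => i ∉ s), c (σ i) ^ (if i ∈ s then 1 else 0) = 1 := by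
      refine Finset.prod_eq_one fun i hi => ?_
      rw [if_neg (Finset.mem_filter.1 hi).2, pow_zero]
    rw [e2, e3, mul_one]
  rw [h5]
  ring

/-- Module EPI. -/
theorem s_EPI (hJTB : S_JTB) : S_EPI := by
  classical
  intro m a d kappa hk
  choose n nu hnu1 hnu2 using fun γ : Fin m → ℕ => EPI_straight γ
  let γs : Finset (Fin m) → Fin m → ℕ := fun s j =>
    kappa j + EPI_del j + if j ∈ s then 1 else 0
  let P := Finset.powersetCard a (Finset.univ : Finset (Fin m))
  let ψ : (Fin m → ℕ) →₀ ℤ := ∑ s ∈ P, Finsupp.single (nu (γs s)) (n (γs s))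
  have hψsum : ∀ c : Fin m → ℂ, (ψ.sum fun mu n => (n : ℂ) * schur mu (Finset.univ.val.map c)) =
      ∑ s ∈ P, (n (γs s) : ℂ) * schur (nu (γs s)) (Finset.univ.val.map c) := by
    intro c
    have h0 : ∀ mu : Fin m → ℕ, ((0 : ℤ) : ℂ) * schur mu (Finset.univ.val.map c) = 0 := by
      intro mu
      simp
    have h1 : ∀ (mu : Fin m → ℕ) (x y : ℤ), ((x + y : ℤ) : ℂ) * schur mu (Finset.univ.val.map c) =
        (x : ℂ) * schur mu (Finset.univ.val.map c) + (y : ℂ) * schur mu (Finset.univ.val.map c) := by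
      intro mu x y
      push_cast
      ring
    have key : ∀ Q : Finset (Finset (Fin m)),
        ((∑ s ∈ Q, Finsupp.single (nu (γs s)) (n (γs s)) : (Fin m → ℕ) →₀ ℤ).sum
          fun mu n => (n : ℂ) * schur mu (Finset.univ.val.map c)) =
        ∑ s ∈ Q, (n (γs s) : ℂ) * schur (nu (γs s)) (Finset.univ.val.map c) := by
      intro Q
      induction Q using Finset.induction_on with
      | empty => simp
      | insert s Q hs ih =>
        rw [Finset.sum_insert hs, Finset.sum_insert hs, Finsupp.sum_add_index' h0 h1, ih,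
          Finsupp.sum_single_index (h0 _)]
    exact key P
  refine ⟨ψ, ?_, ?_⟩
  · intro mu hmu
    have h1 : mu ∈ P.biUnion fun s => (Finsupp.single (nu (γs s)) (n (γs s))).support :=
      Finsupp.support_finsetSum hmu
    rw [Finset.mem_biUnion] at h1
    obtain ⟨s, hs, h2⟩ := h1
    have hn : n (γs s) ≠ 0 := by
      intro h
      rw [h] at h2
      simp at h2
    have h3 := Finsupp.support_single_subset h2
    rw [Finset.mem_singleton] at h3
    obtain ⟨h4, h5⟩ := hnu1 (γs s) hn
    rw [h3]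
    refine ⟨h4, ?_⟩
    have hcard : s.card = a := (Finset.mem_powersetCard.1 hs).2
    have h6 : ∑ j, γs s j = d + ∑ j : Fin m, EPI_del j + a := by
      simp only [γs]
      rw [Finset.sum_add_distrib, Finset.sum_add_distrib, hk.2]
      simp [hcard]
    omega
  · -- distinct entries
    have hmain : ∀ c : Fin m → ℂ, Function.Injective c →
        (Finset.univ.val.map c).esymm a * schur kappa (Finset.univ.val.map c) =
        ψ.sum fun mu n => (n : ℂ) * schur mu (Finset.univ.val.map c) := by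
      intro c hc
      refine mul_right_cancel₀ (EPI_ne c hc) ?_
      have hJ : ∀ lam : Fin m → ℕ, schur lam (Finset.univ.val.map c) * EPI_alt c EPI_del =
          EPI_alt c (fun j => lam j + EPI_del j) := fun lam => (hJTB m c lam).symm
      rw [mul_assoc, hJ, EPI_mul, hψsum, Finset.sum_mul]
      refine Finset.sum_congr rfl fun s _ => ?_
      rw [mul_assoc, hJ, ← hnu2]
    intro c
    have hf : Continuous fun c : Fin m → ℂ =>
        (Finset.univ.val.map c).esymm a * schur kappa (Finset.univ.val.map c) := by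
      refine Continuous.mul ?_ (EPI_schur_cont m kappa)
      have : (fun c : Fin m → ℂ => (Finset.univ.val.map c).esymm a) = fun c =>
          ∑ s ∈ Finset.powersetCard a (Finset.univ : Finset (Fin m)), ∏ i ∈ s, c i := by
        funext c
        rw [Finset.esymm_map_val]
      rw [this]
      fun_prop
    have hg : Continuous fun c : Fin m → ℂ =>
        ψ.sum fun mu n => (n : ℂ) * schur mu (Finset.univ.val.map c) := by
      unfold Finsupp.sum
      exact continuous_finsetSum _ fun mu _ => continuous_const.mul (EPI_schur_cont m mu)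
    have hγ : Continuous fun t : ℂ => fun i : Fin m => c i + t * ((i : ℕ) : ℂ) := by fun_prop
    have h0 : (fun i : Fin m => c i + (0 : ℂ) * ((i : ℕ) : ℂ)) = c := by
      funext i
      simp
    have t1 : Tendsto (fun t : ℂ => (fun c : Fin m → ℂ =>
        (Finset.univ.val.map c).esymm a * schur kappa (Finset.univ.val.map c))
        (fun i : Fin m => c i + t * ((i : ℕ) : ℂ))) (𝓝[≠] 0)
        (𝓝 ((Finset.univ.val.map c).esymm a * schur kappa (Finset.univ.val.map c))) := by
      have h3 : Tendsto _ (𝓝 (0 : ℂ)) _ := (hf.comp hγ).continuousAt (x := (0 : ℂ))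
      simp only [Function.comp_def] at h3
      rw [h0] at h3
      exact h3.mono_left nhdsWithin_le_nhds
    have t2 : Tendsto (fun t : ℂ => (fun c : Fin m → ℂ =>
        ψ.sum fun mu n => (n : ℂ) * schur mu (Finset.univ.val.map c))
        (fun i : Fin m => c i + t * ((i : ℕ) : ℂ))) (𝓝[≠] 0)
        (𝓝 (ψ.sum fun mu n => (n : ℂ) * schur mu (Finset.univ.val.map c))) := by
      have h3 : Tendsto _ (𝓝 (0 : ℂ)) _ := (hg.comp hγ).continuousAt (x := (0 : ℂ))
      simp only [Function.comp_def] at h3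
      rw [h0] at h3
      exact h3.mono_left nhdsWithin_le_nhds
    refine tendsto_nhds_unique t1 (t2.congr' ?_)
    filter_upwards [EPI_inj c] with t ht
    exact (hmain _ ht).symm

end

end Pool.H66.S2
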